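import Pool.Agent.H6.AK.Stmts

/-! # MP_4e8966_co, module ASY: the choice of the parameters -/

set_option autoImplicit false

namespace Pool.Agent.H67.AK

open Pool.Agent.H6.AK

theorem ASY_aux (C q s : ℕ) (hC : 1 ≤ C) (hq : q = 8 * C)
    (hs : s = 2 * C * (2 * (q * (q + 2)) ^ 2 + 1) * (q * (q + 2) + 7)) :
    ∃ N : ℕ, 2 ≤ N ∧
      (2 : ℝ) ^ (q * (q + 2) * (s ^ 2) ^ 2) * (1 - (1 - 2 / (q : ℝ)) ^ ((s ^ 2) ^ 2)) ^ N < 1 ∧
      ∀ D : ℕ, 2 ≤ D →
        D ≤ (q * (q + 2) * (s ^ 2) ^ 2 + 1) ^ (2 * (q * (q + 2)) ^ 2 * (s ^ 2)) * N →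
        (C : ℝ) * Real.log (D : ℝ) ≤ (((s ^ 2) ^ 2 : ℕ) : ℝ) := by
  have hq8 : 8 ≤ q := by omega
  set Q := q * (q + 2) with hQ
  have hs1 : 1 ≤ s := by
    rw [hs]
    have : 0 < 2 * C * (2 * Q ^ 2 + 1) * (Q + 7) := by positivity
    omega
  have hQ1 : 1 ≤ Q := by
    rw [hQ]
    have : 0 < q * (q + 2) := by positivity
    omega
  have hqR : (8 : ℝ) ≤ (q : ℝ) := by exact_mod_cast hq8
  have hsR : (1 : ℝ) ≤ (s : ℝ) := by exact_mod_cast hs1
  have hQR : (1 : ℝ) ≤ (Q : ℝ) := by exact_mod_cast hQ1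
  have hCR : (1 : ℝ) ≤ (C : ℝ) := by exact_mod_cast hC
  set a : ℝ := 1 - 2 / (q : ℝ) with ha
  have ha0 : 3 / 4 ≤ a := by
    have : 2 / (q : ℝ) ≤ 2 / 8 := by gcongr
    rw [ha]
    linarith
  have ha1 : a ≤ 1 := by
    have : 0 ≤ 2 / (q : ℝ) := by positivity
    rw [ha]
    linarith
  have hapos : 0 < a := by linarith
  set K := (s ^ 2) ^ 2 with hK
  have hK1 : 1 ≤ K := Nat.one_le_pow _ _ (Nat.one_le_pow _ _ hs1)
  set η : ℝ := a ^ K with hη
  have hη0 : 0 < η := pow_pos hapos _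
  have hη1 : η ≤ 1 := pow_le_one₀ hapos.le ha1
  set m := Q * K with hm
  have hm1 : 1 ≤ m := Nat.one_le_iff_ne_zero.2 (by rw [hm]; positivity)
  have hmR : (1 : ℝ) ≤ (m : ℝ) := by exact_mod_cast hm1
  set N := ⌈(m : ℝ) / η⌉₊ + 2 with hN
  have hNge : (m : ℝ) / η ≤ (N : ℝ) := by
    have := Nat.le_ceil ((m : ℝ) / η)
    rw [hN]
    push_cast
    linarith
  have hNle : (N : ℝ) ≤ ((m : ℝ) + 3) / η := by
    have h1 : ((⌈(m : ℝ) / η⌉₊ : ℕ) : ℝ) < (m : ℝ) / η + 1 := Nat.ceil_lt_add_one (by positivity)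
    have h2 : (3 : ℝ) ≤ 3 / η := by
      rw [le_div_iff₀ hη0]
      nlinarith
    rw [hN, add_div]
    push_cast
    linarith
  refine ⟨N, by omega, ?_, ?_⟩
  · have h1 : (1 - η) ^ N ≤ Real.exp (-(m : ℝ)) := by
      have h2 : 1 - η ≤ Real.exp (-η) := by
        have := Real.add_one_le_exp (-η)
        linarith
      calc (1 - η) ^ N ≤ (Real.exp (-η)) ^ N := pow_le_pow_left₀ (by linarith) h2 _
        _ = Real.exp (N * (-η)) := by rw [← Real.exp_nat_mul]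
        _ ≤ Real.exp (-(m : ℝ)) := by
            apply Real.exp_le_exp.2
            have := (div_le_iff₀ hη0).1 hNge
            linarith
    have h3 : Real.exp (-(m : ℝ)) = (Real.exp (-1)) ^ m := by
      rw [← Real.exp_nat_mul]
      congr 1
      ring
    have h4 : (2 : ℝ) * Real.exp (-1) < 1 := by
      have h5 : (2 : ℝ) < Real.exp 1 := by
        have := Real.exp_one_gt_d9
        linarith
      rw [Real.exp_neg, ← div_eq_mul_inv, div_lt_one (Real.exp_pos _)]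
      exact h5
    calc (2 : ℝ) ^ m * (1 - η) ^ N ≤ (2 : ℝ) ^ m * (Real.exp (-1)) ^ m := by
          rw [← h3]
          gcongr
      _ = (2 * Real.exp (-1)) ^ m := by rw [mul_pow]
      _ < 1 := pow_lt_one₀ (by positivity) h4 (by omega)
  · intro D hD2 hD
    have hDpos : (0 : ℝ) < (D : ℝ) := by exact_mod_cast (by omega : 0 < D)
    have hNpos : (0 : ℝ) < (N : ℝ) := by exact_mod_cast (by omega : 0 < N)
    have hDR : (D : ℝ) ≤ ((m : ℝ) + 1) ^ (2 * Q ^ 2 * s ^ 2) * (N : ℝ) := by exact_mod_cast hD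
    have hlogD : Real.log (D : ℝ) ≤ ((2 * Q ^ 2 * s ^ 2 : ℕ) : ℝ) * Real.log ((m : ℝ) + 1) +
        Real.log (N : ℝ) := by
      calc Real.log (D : ℝ) ≤ Real.log (((m : ℝ) + 1) ^ (2 * Q ^ 2 * s ^ 2) * (N : ℝ)) :=
            Real.log_le_log hDpos hDR
        _ = _ := by
            rw [Real.log_mul (by positivity) hNpos.ne', Real.log_pow]
    have hlogm3 : Real.log ((m : ℝ) + 3) ≤ ((Q : ℝ) + 7) * s := by
      have h1 : (m : ℝ) + 3 ≤ ((Q : ℝ) + 3) * (s : ℝ) ^ 4 := by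
        have h2 : (m : ℝ) = (Q : ℝ) * (s : ℝ) ^ 4 := by
          rw [hm, hK]
          push_cast
          ring
        have h3 : (1 : ℝ) ≤ (s : ℝ) ^ 4 := one_le_pow₀ hsR
        rw [h2]
        nlinarith
      calc Real.log ((m : ℝ) + 3) ≤ Real.log (((Q : ℝ) + 3) * (s : ℝ) ^ 4) :=
            Real.log_le_log (by positivity) h1
        _ = Real.log ((Q : ℝ) + 3) + 4 * Real.log s := by
            rw [Real.log_mul (by positivity) (by positivity), Real.log_pow]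
            push_cast
            ring
        _ ≤ ((Q : ℝ) + 3) + 4 * s := by
            have h4 := Real.log_le_self (x := (Q : ℝ) + 3) (by positivity)
            have h5 := Real.log_le_self (x := (s : ℝ)) (by positivity)
            linarith
        _ ≤ ((Q : ℝ) + 7) * s := by nlinarith
    have hlogm1 : Real.log ((m : ℝ) + 1) ≤ ((Q : ℝ) + 7) * s :=
      (Real.log_le_log (by positivity) (by linarith)).trans hlogm3
    have hloga : -Real.log a ≤ 4 / (q : ℝ) := by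
      have h1 := Real.one_sub_inv_le_log_of_pos hapos
      have h2 : a⁻¹ - 1 ≤ 4 / (q : ℝ) := by
        have h3 : a⁻¹ ≤ 1 + 4 / (q : ℝ) := by
          rw [inv_le_iff_one_le_mul₀ hapos, ha]
          have h4 : (1 - 2 / (q : ℝ)) * (1 + 4 / (q : ℝ)) =
              1 + (2 / (q : ℝ)) * (1 - 4 / (q : ℝ)) := by ring
          have h5 : 4 / (q : ℝ) ≤ 4 / 8 := by gcongr
          have h6 : 0 ≤ (2 / (q : ℝ)) * (1 - 4 / (q : ℝ)) :=
            mul_nonneg (by positivity) (by linarith)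
          rw [mul_comm, h4]
          linarith
        linarith
      linarith
    have hlogN : Real.log (N : ℝ) ≤ ((Q : ℝ) + 7) * s + (K : ℝ) * (4 / (q : ℝ)) := by
      calc Real.log (N : ℝ) ≤ Real.log (((m : ℝ) + 3) / η) := Real.log_le_log hNpos hNle
        _ = Real.log ((m : ℝ) + 3) - (K : ℝ) * Real.log a := by
            rw [Real.log_div (by positivity) hη0.ne', hη, Real.log_pow]
        _ ≤ _ := by
            have h1 : (K : ℝ) * (-Real.log a) ≤ (K : ℝ) * (4 / (q : ℝ)) := by gcongr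
            linarith
    have hK4 : (K : ℝ) = (s : ℝ) ^ 4 := by
      rw [hK]
      push_cast
      ring
    have hC4 : (C : ℝ) * (4 / (q : ℝ)) = 1 / 2 := by
      rw [hq]
      push_cast
      field_simp
      norm_num
    have hsR2 : (s : ℝ) = 2 * (C : ℝ) * (2 * (Q : ℝ) ^ 2 + 1) * ((Q : ℝ) + 7) := by
      rw [hs]
      push_cast
      ring
    have h1 : Real.log (D : ℝ) ≤ (2 * (Q : ℝ) ^ 2 * (s : ℝ) ^ 2) * (((Q : ℝ) + 7) * s) +
        (((Q : ℝ) + 7) * s + (s : ℝ) ^ 4 * (4 / (q : ℝ))) := by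
      rw [← hK4]
      refine hlogD.trans (add_le_add ?_ hlogN)
      push_cast
      gcongr
    have h2 : (C : ℝ) * Real.log (D : ℝ) ≤ (C : ℝ) * ((2 * (Q : ℝ) ^ 2 * (s : ℝ) ^ 2) *
        (((Q : ℝ) + 7) * s) + (((Q : ℝ) + 7) * s + (s : ℝ) ^ 4 * (4 / (q : ℝ)))) := by gcongr
    have h3 : (C : ℝ) * ((2 * (Q : ℝ) ^ 2 * (s : ℝ) ^ 2) *
        (((Q : ℝ) + 7) * s) + (((Q : ℝ) + 7) * s + (s : ℝ) ^ 4 * (4 / (q : ℝ)))) =
        (C : ℝ) * ((Q : ℝ) + 7) * (2 * (Q : ℝ) ^ 2 * (s : ℝ) ^ 2 + 1) * s +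
          (s : ℝ) ^ 4 * ((C : ℝ) * (4 / (q : ℝ))) := by ring
    have h4 : (C : ℝ) * ((Q : ℝ) + 7) * (2 * (Q : ℝ) ^ 2 * (s : ℝ) ^ 2 + 1) * s ≤
        (C : ℝ) * ((Q : ℝ) + 7) * ((2 * (Q : ℝ) ^ 2 + 1) * (s : ℝ) ^ 2) * s := by
      gcongr
      have : (1 : ℝ) ≤ (s : ℝ) ^ 2 := one_le_pow₀ hsR
      nlinarith
    have h5 : (C : ℝ) * ((Q : ℝ) + 7) * ((2 * (Q : ℝ) ^ 2 + 1) * (s : ℝ) ^ 2) * s =
        (s : ℝ) ^ 4 / 2 := by
      have h6 : (C : ℝ) * ((Q : ℝ) + 7) * ((2 * (Q : ℝ) ^ 2 + 1) * (s : ℝ) ^ 2) * s =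
        (2 * (C : ℝ) * (2 * (Q : ℝ) ^ 2 + 1) * ((Q : ℝ) + 7)) * (s : ℝ) ^ 3 / 2 := by ring
      rw [h6, ← hsR2]
      ring
    rw [h3, hC4] at h2
    rw [hK4]
    linarith

theorem ASY_thm : ASYStmt := by
  intro c
  obtain ⟨C0, hC0⟩ := exists_nat_ge c
  obtain ⟨N, hN2, hN, hD⟩ := ASY_aux (C0 + 1) (8 * (C0 + 1)) _ (by omega) rfl rfl
  refine ⟨8 * (C0 + 1), _, N, by omega, ?_, hN2, hN, fun D h2 h => ?_⟩
  · apply Nat.one_le_pow
    positivity
  · refine le_trans ?_ (hD D h2 h)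
    have h1 : 0 ≤ Real.log (D : ℝ) := Real.log_natCast_nonneg D
    have h2 : c ≤ ((C0 + 1 : ℕ) : ℝ) := by
      push_cast
      linarith
    gcongr

end Pool.Agent.H67.AK
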